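import Pool.Agent.P.MP_a07190_gt.Wk.All

open scoped Manifold ContDiff
open Set Pool.Agent.P.MP_a07190_gt

namespace Pool.Agent.Results.MP_a07190_gt.ConvexWeak

/-- Let `C₁, C₂` be the boundary curves of planar convex bodies `K₁, K₂` with disjoint interiors.
There is `V₀ > 0` such that every compact surface of constant mean curvature (a `C²` immersion
inside, `C¹` up to the boundary) with boundary `C₁ ∪ C₂` and algebraic volume less than `V₀` is
disconnected. -/
theorem result (K₁ K₂ : Set E2) (h₁ : Convex ℝ K₁) (c₁ : IsCompact K₁)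
    (i₁ : (interior K₁).Nonempty) (h₂ : Convex ℝ K₂) (c₂ : IsCompact K₂)
    (i₂ : (interior K₂).Nonempty) (hd : Disjoint (interior K₁) (interior K₂)) :
    ∃ V₀ : ℝ, 0 < V₀ ∧ ∀ (M : Type) [TopologicalSpace M] [ChartedSpace (EuclideanHalfSpace 2) M]
      [IsManifold (𝓡∂ 2) ∞ M] [MeasurableSpace M] [BorelSpace M] [CompactSpace M] [T2Space M]
      (f N : M → E3) (H : ℝ), Wk.IsCMCw f N H →
      BijOn f ((𝓡∂ 2).boundary M) (toP '' (frontier K₁ ∪ frontier K₂)) →
      algVol f N < V₀ → ¬IsPreconnected (range f) :=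
  Wk.convex_all h₁ c₁ i₁ h₂ c₂ i₂ hd

end Pool.Agent.Results.MP_a07190_gt.ConvexWeak
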