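import Pool.Agent.P.MP_a07190_gt.Gr.All

open scoped Manifold ContDiff
open Set Pool.Agent.P.MP_a07190_gt

namespace Pool.Agent.Results.MP_a07190_gt.Graph

/-- Let `K` be a compact planar set whose complement is connected and is a union of open discs of
a fixed radius `a`. There is `V₀ > 0` such that every compact immersed surface of constant mean
curvature with boundary `∂K` and algebraic volume less than `V₀` is a graph over `K`: the vertical
projection is a bijection onto `K` and the normal is nowhere horizontal. -/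
theorem result (K : Set E2) (hK : IsCompact K) (hne : K.Nonempty) (hc : IsPreconnected Kᶜ)
    (a : ℝ) (ha : 0 < a) (hr : ∀ y ∉ K, ∃ q, dist y q < a ∧ Disjoint (Metric.ball q a) K) :
    ∃ V₀ : ℝ, 0 < V₀ ∧ ∀ (M : Type) [TopologicalSpace M] [ChartedSpace (EuclideanHalfSpace 2) M]
      [IsManifold (𝓡∂ 2) ∞ M] [MeasurableSpace M] [BorelSpace M] [CompactSpace M] [T2Space M]
      (f N : M → E3) (H : ℝ), Gr.IsCMC1 f N H →
      BijOn f ((𝓡∂ 2).boundary M) (toP '' frontier K) → algVol f N < V₀ →
      (∀ m, ∃ y ∈ K, f m 0 = y 0 ∧ f m 1 = y 1) ∧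
        (∀ y ∈ K, ∃! m, f m 0 = y 0 ∧ f m 1 = y 1) ∧ ∀ m, N m 2 ≠ 0 :=
  Gr.graph_all hK hne hc ha hr

end Pool.Agent.Results.MP_a07190_gt.Graph
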