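import Pool.Agent.P.MP_a07190_gt.Wk.All

open scoped Manifold ContDiff
open Set Pool.Agent.P.MP_a07190_gt

namespace Pool.Agent.Results.MP_a07190_gt.Nonconvex

/-- Let `K₁, K₂` be disjoint compact planar sets whose union does not separate the plane, and let
`Γ ⊆ K₁ ∪ K₂` meet both. There is `V₀ > 0` such that every compact surface of constant mean
curvature with boundary `Γ` and algebraic volume less than `V₀` is disconnected. -/
theorem result (K₁ K₂ Γ : Set E2) (c₁ : IsCompact K₁) (c₂ : IsCompact K₂) (hd : Disjoint K₁ K₂)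
    (hc : IsPreconnected (K₁ ∪ K₂)ᶜ) (hΓ : Γ ⊆ K₁ ∪ K₂) (n₁ : (Γ ∩ K₁).Nonempty)
    (n₂ : (Γ ∩ K₂).Nonempty) :
    ∃ V₀ : ℝ, 0 < V₀ ∧ ∀ (M : Type) [TopologicalSpace M] [ChartedSpace (EuclideanHalfSpace 2) M]
      [IsManifold (𝓡∂ 2) ∞ M] [MeasurableSpace M] [BorelSpace M] [CompactSpace M] [T2Space M]
      (f N : M → E3) (H : ℝ), Wk.IsCMCw f N H → BijOn f ((𝓡∂ 2).boundary M) (toP '' Γ) →
      algVol f N < V₀ → ¬IsPreconnected (range f) :=
  Wk.apart_all c₁ c₂ hd hc hΓ n₁ n₂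

end Pool.Agent.Results.MP_a07190_gt.Nonconvex
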